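import Pool.Agent.N569.VT.Top

/-!
# Positive diagrams with twisted boxes
-/

set_option autoImplicit false

namespace Pool.Agent.N569.VT

open Pool.Agent.H891R2.Jones Pool.Agent.W639.RB Pool.Agent.TH561 Pool.Agent.N569.TW Finset LaurentPolynomial


variable {m : ℕ}

theorem terms_let {C : Finset ℕ} : ∀ W : List (Bool × ℕ), (∀ x ∈ W, x.2 ∈ C) → ∀ t ∈ terms W, ∀ i ∈ t.2, i ∈ C := by
  intro W
  induction W with
  | nil => intro _ t ht; simp [terms] at ht; subst ht; simp
  | cons x W ih =>
    intro hx t ht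
    rw [terms, List.mem_append, List.mem_map, List.mem_map] at ht
    rcases ht with ⟨u, hu, rfl⟩ | ⟨u, hu, rfl⟩
    · exact ih (fun y hy => hx y (List.mem_cons_of_mem _ hy)) u hu
    · intro i hi
      rcases List.mem_cons.1 hi with rfl | hi
      · exact hx x List.mem_cons_self
      · exact ih (fun y hy => hx y (List.mem_cons_of_mem _ hy)) u hu i hi

/-- the bracket is divisible by a power of `dl` if all states have many pieces -/
theorem dvd_bracketO (hm : 0 < m) (O : Outer m) (W : List (Bool × ℕ)) (hW : ∀ x ∈ W, x.2 + 1 < m) (C : Finset ℕ)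
    (hC : ∀ x ∈ W, x.2 ∈ C) (κ : ℕ)
    (hκ : ∀ (σ : Fin O.crossings.length → Bool) (L : List ℕ), (∀ i ∈ L, i ∈ C) → κ ≤ (ofO O σ).lam L) :
    dl ^ κ ∣ dl * (draw O W).close.bracket := by
  rw [bracket_states hm O W hW]
  refine Finset.dvd_sum fun σ _ => Dvd.dvd.mul_left (List.dvd_sum fun y hy => ?_) _
  rw [List.mem_map] at hy
  obtain ⟨t, ht, rfl⟩ := hy
  exact Dvd.dvd.mul_left (pow_dvd_pow _ (hκ σ _ (terms_let W hC t ht))) _

/-- a power of `dl` in the bracket of a diagram with `f = dl ^ c` -/
theorem pow_le {P : Type} [Fintype P] [DecidableEq P] (D : Diagram P) (c κ : ℕ) (hfc : D.fPoly = dl ^ c)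
    (hdvd : dl ^ κ ∣ dl * D.bracket) : κ ≤ c + 1 := by
  by_contra hcon
  obtain ⟨g, hg⟩ := hdvd
  have h7 : at1 (dl * D.bracket) = (-2) ^ κ * at1 g := by
    rw [hg, map_mul, map_pow, at1_dl]
  have h8 : at1 D.fPoly = (-2) ^ c := by rw [hfc, map_pow, at1_dl]
  have h9 : at1 D.bracket = (-2) ^ c ∨ at1 D.bracket = -(-2) ^ c := by
    unfold Diagram.fPoly at h8
    rw [map_mul, map_mul, at1_T, mul_one] at h8
    split_ifs at h8
    · rw [map_one, one_mul] at h8
      exact Or.inl h8
    · rw [map_neg, map_one, neg_mul, one_mul] at h8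
      right
      rw [← h8]
      ring
  rw [map_mul, at1_dl] at h7
  obtain ⟨r, hr⟩ : ∃ r, κ = (c + 1) + (r + 1) := ⟨κ - (c + 1) - 1, by omega⟩
  rw [hr, pow_add] at h7
  have h10 : ((-2 : ℤ)) ^ (c + 1) ≠ 0 := pow_ne_zero _ (by norm_num)
  rcases h9 with h9 | h9
  · rw [h9, ← pow_succ'] at h7
    have h11 : (1 : ℤ) = (-2) ^ (r + 1) * at1 g := by
      apply mul_left_cancel₀ h10
      rw [mul_one, ← mul_assoc]
      exact h7
    rw [pow_succ'] at h11
    have : (2 : ℤ) ∣ 1 := ⟨-((-2) ^ r * at1 g), by rw [h11]; ring⟩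
    omega
  · rw [h9, mul_neg, ← pow_succ'] at h7
    have h11 : (-1 : ℤ) = (-2) ^ (r + 1) * at1 g := by
      apply mul_left_cancel₀ h10
      rw [mul_neg, mul_one, ← mul_assoc]
      exact h7
    rw [pow_succ'] at h11
    have : (2 : ℤ) ∣ -1 := ⟨-((-2) ^ r * at1 g), by rw [h11]; ring⟩
    omega

theorem writhe_pos {P : Type} (D : Diagram P) (hpos : ∀ x ∈ D.crossings, x.sign = 1) :
    D.writhe = D.crossings.length := by
  unfold Diagram.writhe
  generalize D.crossings = l at hpos
  induction l with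
  | nil => simp
  | cons x l ih =>
    rw [List.map_cons, List.sum_cons, ih (fun y hy => hpos y (List.mem_cons_of_mem _ hy)),
      hpos x List.mem_cons_self, List.length_cons]
    push_cast
    ring

/-- the coefficients of the normalised polynomial -/
theorem fPoly_coeff {P : Type} [Fintype P] [DecidableEq P] (D : Diagram P) (n : ℤ) :
    D.fPoly.coeff n = (if Even D.writhe then 1 else -1) * D.bracket.coeff (n + 3 * D.writhe) := by
  unfold Diagram.fPoly
  have h3 : (T (-3 * D.writhe) * D.bracket).coeff n = D.bracket.coeff (n + 3 * D.writhe) := by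
    rw [coeff_T_mul]
    congr 1
    ring
  split_ifs
  · rw [one_mul, one_mul, h3]
  · have h4 : (-1 * T (-3 * D.writhe) * D.bracket : ℤ[T;T⁻¹]) = -(T (-3 * D.writhe) * D.bracket) := by ring
    rw [h4, AddMonoidAlgebra.coeff_neg, Finsupp.neg_apply, h3]
    ring

theorem lam_zero (O : Outer m) : (ofO O (fun _ => true)).lam [] = O.close.loops (fun _ => true) := lam_nil O _

/-- the largest exponent of the normalised polynomial -/
theorem top_fPoly (hm : 0 < m) (O : Outer m) (hO : Good O) (hup : ∀ j, O.up j = true) (t : Tw) (ht : t.Fits m 0)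
    (hd : t.debt = 0) (E : ℤ)
    (hE : E = O.crossings.length - 3 * O.close.writhe + 2 * (O.close.loops (fun _ => true) - 1) - 2 * expo t.word) :
    ((draw O t.word).close.fPoly.coeff E = 1 ∨ (draw O t.word).close.fPoly.coeff E = -1) ∧
      Dg (draw O t.word).close.fPoly E := by
  have hW : ∀ x ∈ t.word, x.2 + 1 < m := fun x hx => by
    have := (t.word_mem m 0 ht x hx).2; omega
  obtain ⟨S, hS⟩ := repL (m := m) t m 0 ht (by omega)
  rw [hd] at hS
  obtain ⟨h1, h2⟩ := top_bracketO hm O hO t.word hW hS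
  have hwr := writhe O hup t.word hW
  have h3 : ((O.close.loops (fun _ => true) : ℕ) : ℤ) = (ofO O (fun _ => true)).lam [] := by
    rw [lam_zero]
  rw [h3] at hE
  have h4 : (E + 3 * (draw O t.word).close.writhe : ℤ) =
      O.crossings.length + expo t.word + 2 * (ofO O (fun _ => true)).lam [] - 2 := by
    rw [hwr, hE]
    ring
  rw [← h4] at h1 h2
  constructor
  · rw [fPoly_coeff]
    rcases h1 with h1 | h1
    · rw [h1]; split_ifs <;> simp
    · rw [h1]; split_ifs <;> simp
  · intro n hn
    rw [fPoly_coeff, h2 _ (by linarith), mul_zero]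

theorem coeff_dl_ne {c : ℕ} {E : ℤ} (h : (dl ^ c).coeff E = 1 ∨ (dl ^ c).coeff E = -1) (h' : Dg (dl ^ c) E) :
    E = 2 * c := by
  have h5 := dg_dl c
  have h6 := coeff_dl_pow c
  by_contra hne
  rcases lt_or_gt_of_ne hne with h7 | h7
  · have h8 := h' _ h7
    rw [h6] at h8
    exact absurd h8 (by
      rcases Nat.even_or_odd c with h9 | h9
      · rw [h9.neg_one_pow]; norm_num
      · rw [h9.neg_one_pow]; norm_num)
  · have h8 := h5 _ h7
    rw [h8] at h
    rcases h with h | h <;> norm_num at h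

/-- the main theorem -/
theorem pos_mainO (hm : 0 < m) (O : Outer m) (hO : Good O) (hup : ∀ j, O.up j = true)
    (hpos : ∀ x ∈ O.crossings, x.sign = 1) (t : Tw) (ht : t.Fits m 0) (hd : t.debt = 0) :
    ((draw O t.word).close.fPoly.coeff
        (2 * (O.close.loops (fun _ => true) - 1) - 2 * (O.crossings.length + expo t.word)) = 1 ∨
      (draw O t.word).close.fPoly.coeff
        (2 * (O.close.loops (fun _ => true) - 1) - 2 * (O.crossings.length + expo t.word)) = -1) ∧
    (∀ n, 2 * (O.close.loops (fun _ => true) - 1) - 2 * (O.crossings.length + expo t.word) < n →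
      (draw O t.word).close.fPoly.coeff n = 0) ∧
    ∀ c : ℕ, (draw O t.word).close.fPoly = dl ^ c →
      t.boxes = 0 ∧ (∀ x ∈ t.word, x.1 = true) ∧ (t.word.map Prod.snd).Nodup ∧
        O.crossings.length + t.word.length + c + 1 = O.close.loops (fun _ => true) := by
  have hW : ∀ x ∈ t.word, x.2 + 1 < m := fun x hx => by
    have := (t.word_mem m 0 ht x hx).2; omega
  have hw0 : O.close.writhe = O.crossings.length := writhe_pos O.close hpos
  obtain ⟨h1, h2⟩ := top_fPoly hm O hO hup t ht hd
    (2 * (O.close.loops (fun _ => true) - 1) - 2 * (O.crossings.length + expo t.word)) (by rw [hw0]; ring)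
  refine ⟨h1, h2, fun c hfc => ?_⟩
  rw [hfc] at h1 h2
  have hwc := coeff_dl_ne h1 h2
  have hcol := t.cols_le m 0 ht
  rw [hd] at hcol
  obtain ⟨κ, hκ1, hκ2⟩ := pieces hm O t.cols (fun i hi => by
    have := t.cols_mem m 0 ht i hi; omega)
  have hdvd := dvd_bracketO hm O t.word hW t.cols (t.mem_cols m 0 ht hd) κ hκ1
  have hp := pow_le _ c κ hfc hdvd
  rw [lam_zero] at hκ2
  have h3 : (O.close.loops (fun _ => true) : ℤ) ≤ c + 1 + O.crossings.length + #t.cols := by
    have : O.close.loops (fun _ => true) ≤ c + 1 + O.crossings.length + #t.cols := by omega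
    exact_mod_cast this
  have hb : t.boxes = 0 := by
    push_cast at hcol
    have : (t.boxes : ℤ) ≤ 0 := by linarith
    omega
  obtain ⟨hpos', hcols⟩ := t.simple hb hd
  have hlen : expo t.word = t.word.length := expo_pos _ hpos'
  have h13 : #t.cols = t.word.length := by
    push_cast at hcol
    have h5 : (#t.cols : ℤ) ≤ t.word.length := by linarith
    have h6 : (t.word.length : ℤ) ≤ #t.cols := by linarith
    omega
  refine ⟨hb, hpos', ?_, ?_⟩
  · rw [hcols] at h13
    have h14 : (t.word.map Prod.snd).toFinset.card = (t.word.map Prod.snd).length := by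
      rw [h13, List.length_map]
    exact Multiset.toFinset_card_eq_card_iff_nodup.1 h14
  · rw [hlen] at hwc
    have : (O.crossings.length : ℤ) + t.word.length + c + 1 = O.close.loops (fun _ => true) := by linarith
    exact_mod_cast this

end Pool.Agent.N569.VT
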