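import Pool.Agent.N650.VU.VU1
import Pool.Agent.N681.VU.VU2
import Pool.Agent.N48.VU.VU3
import Pool.Agent.N571.TLF.Pairs
import Pool.Agent.N569.VT.Fin

/-!
# One order for all outsides with boundedly many crossings
-/

set_option autoImplicit false

namespace Pool.Agent.N569.VT

open Pool.Agent.H891R2.Jones Pool.Agent.W639.RB Pool.Agent.TH561 Pool.Agent.N569.TW Finset LaurentPolynomial
  Pool.Agent.Y463.SK Pool.Agent.H832R3.VJ Pool.Agent.N571.TLF

variable {m : ℕ}

/-- the data of an outside with at most `N` crossings and at most `B` free pieces -/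
abbrev Dt (m N B : ℕ) : Type := Fin (N+1) × (Fin m → Bool) × Fin (2*N+1) ×
  ((Fin N → Bool) → Set ((Fin m ⊕ Fin m) × (Fin m ⊕ Fin m)) × Fin (B+1))

def res (N : ℕ) {n : ℕ} (τ : Fin N → Bool) : Fin n → Bool := fun i => if h : (i : ℕ) < N then τ ⟨i, h⟩ else false

noncomputable def dat (N B : ℕ) (O : Outer m) : Dt m N B :=
  (⟨min O.crossings.length N, by omega⟩, O.up, ⟨min (O.close.writhe + N).toNat (2*N), by omega⟩,
   fun τ => ({p | (ofO O (res N τ)).part p.1 p.2}, ⟨min (ofO O (res N τ)).free B, by omega⟩))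

structure Bd (N B : ℕ) (O : Outer m) : Prop where
  len : O.crossings.length ≤ N
  free : ∀ σ, (ofO O σ).free ≤ B

theorem abs_writhe {P : Type} (D : Diagram P) : |D.writhe| ≤ D.crossings.length := by
  unfold Diagram.writhe
  generalize D.crossings = l
  induction l with
  | nil => simp
  | cons x l ih =>
    rw [List.map_cons, List.sum_cons, List.length_cons]
    have h1 : |x.sign| = 1 := by
      unfold Crossing.sign
      split_ifs <;> simp
    have h2 := abs_add_le x.sign (l.map Crossing.sign).sum
    push_cast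
    linarith

theorem alike_of_dat {N B : ℕ} {O O' : Outer m} (h : Bd N B O) (h' : Bd N B O') (e : dat N B O = dat N B O') :
    Alike O O' := by
  have e1 := congrArg (fun x => (x.1 : ℕ)) e
  have e2 := congrArg (fun x => x.2.1) e
  have e3 := congrArg (fun x => (x.2.2.1 : ℕ)) e
  have e4 := fun τ => congrArg (fun x => (x.2.2.2 τ).1) e
  have e5 := fun τ => congrArg (fun x => ((x.2.2.2 τ).2 : ℕ)) e
  simp only [dat] at e1 e2 e3 e4 e5
  have hl := h.len
  have hl' := h'.len
  have hlen : O.crossings.length = O'.crossings.length := by omega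
  have hw := abs_le.1 (abs_writhe O.close)
  have hw' := abs_le.1 (abs_writhe O'.close)
  have hc : O.close.crossings.length = O.crossings.length := rfl
  have hc' : O'.close.crossings.length = O'.crossings.length := rfl
  rw [hc] at hw
  rw [hc'] at hw'
  have key : ∀ (σ : Fin O.crossings.length → Bool) (σ' : Fin O'.crossings.length → Bool),
      (∀ i : Fin O.crossings.length, σ i = σ' (Fin.cast hlen i)) →
      ∃ τ : Fin N → Bool, res N τ = σ ∧ res N τ = σ' := by
    intro σ σ' hσ
    refine ⟨fun i => if h : (i : ℕ) < O.crossings.length then σ ⟨i, h⟩ else false, ?_, ?_⟩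
    · funext i
      have h1 : (i : ℕ) < N := lt_of_lt_of_le i.2 hl
      simp [res, h1]
    · funext i
      have h1 : (i : ℕ) < N := lt_of_lt_of_le i.2 hl'
      have h2 : (i : ℕ) < O.crossings.length := by rw [hlen]; exact i.2
      simp only [res, h1, h2, dif_pos]
      exact hσ ⟨i, h2⟩
  refine ⟨hlen, e2, by omega, ?_, ?_⟩
  · intro σ σ' hσ
    obtain ⟨τ, h1, h2⟩ := key σ σ' hσ
    have h3 := e4 τ
    rw [h1, h2] at h3
    funext a b
    have h4 := Set.ext_iff.1 h3 (a, b)
    exact propext h4
  · intro σ σ' hσ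
    obtain ⟨τ, h1, h2⟩ := key σ σ' hσ
    have h3 := e5 τ
    rw [h1, h2] at h3
    have h4 := h.free σ
    have h5 := h'.free σ'
    omega

theorem map_lt (w : List (Letter m)) : ∀ x ∈ w.map (fun x => (x.1, (x.2 : ℕ))), x.2 + 1 < m := by
  intro x hx
  rw [List.mem_map] at hx
  obtain ⟨y, _, rfl⟩ := hx
  have := y.2.2
  simp only
  omega

theorem mat_type (X Y : Lk m) (h : X.part = Y.part) (h' : X.free = Y.free) (N : ℕ) : X.mat N = Y.mat N :=
  Pool.Agent.N650.VU.mat_type X Y h h' N

theorem writhe_up (O O' : Outer m) (h : O.up = O'.up) (W : List (Bool × ℕ)) (hW : ∀ x ∈ W, x.2 + 1 < m) :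
    (draw O W).close.writhe - O.close.writhe = (draw O' W).close.writhe - O'.close.writhe :=
  Pool.Agent.N681.VU.writhe_up O O' h W hW

set_option maxHeartbeats 200000 in
theorem dia_alike (hm : 0 < m) {O O' : Outer m} (h : Alike O O') (w : List (Letter m)) :
    (dia O w).fPoly = (dia O' w).fPoly := by
  unfold dia
  exact Pool.Agent.N48.VU.fPoly_alike mat_type writhe_up hm O O' h _ (map_lt w)

end Pool.Agent.N569.VT
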