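import Pool.Agent.N271.VT.VT1
import Pool.Agent.N701.VT.VT2
import Pool.Agent.N519.VT.VT3
import Pool.Agent.N362.VT.VT4
import Pool.Agent.N359.VT.VT5
import Pool.Agent.N300.VT.Pieces
import Pool.Agent.N75.VT.VT7

/-!
# The collected statements
-/

set_option autoImplicit false

namespace Pool.Agent.N569.VT

open Pool.Agent.H891R2.Jones Pool.Agent.W639.RB Pool.Agent.TH561 Pool.Agent.N569.TW Finset LaurentPolynomial

variable {m : ℕ}

theorem mat_mul (X Y : Lk m) (N : ℕ) : (X.mul Y).mat N = X.mat N * Y.mat N := Pool.Agent.N271.VT.mat_mul X Y N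

theorem mat_one (N : ℕ) : (Lk.one m).mat N = 1 := Pool.Agent.N271.VT.mat_one N

theorem mat_e (i : ℕ) (hi : i + 1 < m) (N : ℕ) : (Lk.e m i).mat N = KK m N i := Pool.Agent.N271.VT.mat_e i hi N

theorem trace_mat (X : Lk m) (N : ℕ) : Matrix.trace (X.mat N) = (N : ℂ) ^ X.loops :=
  Pool.Agent.N271.VT.trace_mat X N

theorem trace_lam (X : Lk m) (L : List ℕ) (hL : ∀ i ∈ L, i + 1 < m) (N : ℕ) :
    Matrix.trace (X.mat N * WP (KK m N) L) = (N : ℂ) ^ X.lam L := Pool.Agent.N271.VT.trace_lam X L hL N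

theorem lam_add (X : Lk m) (L : List ℕ) (hL : ∀ i ∈ L, i + 1 < m) (i : ℕ) (hi : i + 1 < m) :
    X.lam (L ++ [i]) ≤ X.lam L + 1 := Pool.Agent.N701.VT.lam_add mat_mul mat_one trace_mat X L hL i hi

theorem repL (t : Tw) (n k : ℕ) (h : t.Fits n k) (hk : k + n ≤ m) :
    ∃ S, RepL m k n t.word (expo t.word) t.debt S :=
  Pool.Agent.N519.VT.repL mat_mul mat_one mat_e trace_lam lam_add t n k h hk

theorem bracket_repL (hm : 0 < m) (O : Outer m) (W : List (Bool × ℕ)) (hW : ∀ x ∈ W, x.2 + 1 < m) {w : ℤ} {q : ℕ}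
    {S : List (ℤ[T;T⁻¹] × List ℕ)} (h : RepL m 0 m W w q S) :
    dl * (draw O W).close.bracket = ∑ σ : Fin O.crossings.length → Bool, T (Diagram.weight σ) *
      (T w * dl ^ (ofO O σ).lam [] + (S.map (fun t => t.1 * dl ^ (ofO O σ).lam t.2)).sum) :=
  Pool.Agent.N362.VT.bracket_repL trace_lam hm O W hW h

theorem bracket_states (hm : 0 < m) (O : Outer m) (W : List (Bool × ℕ)) (hW : ∀ x ∈ W, x.2 + 1 < m) :
    dl * (draw O W).close.bracket = ∑ σ : Fin O.crossings.length → Bool, T (Diagram.weight σ) *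
      ((terms W).map (fun t : ℤ × List ℕ => (T t.1 * dl ^ (ofO O σ).lam t.2 : ℤ[T;T⁻¹]))).sum :=
  Pool.Agent.N362.VT.bracket_states trace_lam hm O W hW

theorem lam_nil (O : Outer m) (σ : Fin O.crossings.length → Bool) : (ofO O σ).lam [] = O.close.loops σ :=
  Pool.Agent.N362.VT.lam_nil trace_lam O σ

theorem near_closed {P : Type} [Fintype P] [DecidableEq P] (D : Diagram P) (h : D.IsClosed) : Near D :=
  Pool.Agent.N359.VT.near_closed D h

theorem near_knotoid {P : Type} [Fintype P] [DecidableEq P] (D : Diagram P)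
    (h : Pool.Agent.H832R3.TW.IsKnotoid D) : Near D := Pool.Agent.N359.VT.near_knotoid D h

theorem first_flip (O : Outer m) (hO : Near O.close) (hpos : ∀ x ∈ O.crossings, x.sign = 1)
    (i : Fin O.crossings.length) :
    (ofO O (Function.update (fun _ => true) i false)).lam [] ≤ (ofO O (fun _ => true)).lam [] :=
  Pool.Agent.N359.VT.first_flip lam_nil O hO hpos i

theorem flip (O : Outer m) (σ : Fin O.crossings.length → Bool) (i : Fin O.crossings.length) (hi : σ i = true) :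
    (ofO O (Function.update σ i false)).lam [] ≤ (ofO O σ).lam [] + 1 :=
  Pool.Agent.N359.VT.flip lam_nil O σ i hi

theorem first_e (O : Outer m) (hO : Near O.close) (hup : ∀ j, O.up j = true) (hpos : ∀ x ∈ O.crossings, x.sign = 1)
    (i : ℕ) (hi : i + 1 < m) : (ofO O (fun _ => true)).lam [i] ≤ (ofO O (fun _ => true)).lam [] :=
  Pool.Agent.N359.VT.first_e lam_nil O hO hup hpos i hi

theorem pieces (hm : 0 < m) (O : Outer m) (C : Finset ℕ) (hCm : ∀ i ∈ C, i + 1 < m) : ∃ κ : ℕ,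
    (∀ (σ : Fin O.crossings.length → Bool) (L : List ℕ), (∀ i ∈ L, i ∈ C) → κ ≤ (ofO O σ).lam L) ∧
    (ofO O (fun _ => true)).lam [] ≤ κ + O.crossings.length + #C := Pool.Agent.N300.VT.pieces hm O C hCm

theorem writhe (O : Outer m) (hup : ∀ j, O.up j = true) (W : List (Bool × ℕ)) (hW : ∀ x ∈ W, x.2 + 1 < m) :
    (draw O W).close.writhe = O.close.writhe + expo W := Pool.Agent.N75.VT.writhe O hup W hW

theorem closed (O : Outer m) (hO : O.close.IsClosed) (hup : ∀ j, O.up j = true)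
    (W : List (Bool × ℕ)) (hW : ∀ x ∈ W, x.2 + 1 < m) : (draw O W).close.IsClosed :=
  Pool.Agent.N75.VT.closed O hO hup W hW

theorem knotoid (O : Outer m) (hO : Pool.Agent.H832R3.TW.IsKnotoid O.close)
    (hup : ∀ j, O.up j = true) (W : List (Bool × ℕ)) (hW : ∀ x ∈ W, x.2 + 1 < m) :
    Pool.Agent.H832R3.TW.IsKnotoid (draw O W).close := Pool.Agent.N75.VT.knotoid O hO hup W hW

end Pool.Agent.N569.VT
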