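import Pool.Agent.N569.VT.Uni

/-!
# Bounds for the number of the free pieces
-/

set_option autoImplicit false

namespace Pool.Agent.N569.VT

open Pool.Agent.H891R2.Jones Pool.Agent.W639.RB Pool.Agent.TH561 Pool.Agent.N569.TW Finset LaurentPolynomial
  Pool.Agent.Y463.SK Pool.Agent.H832R3.VJ Pool.Agent.N571.TLF

variable {m : ℕ}

theorem lam_all (O : Outer m) (k : ℕ) : ∀ σ : Fin O.crossings.length → Bool, nB σ = k →
    (ofO O σ).lam [] ≤ (ofO O (fun _ => true)).lam [] + k := by
  induction k with
  | zero =>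
    intro σ hk
    have h : σ = fun _ => true := by
      funext i
      by_contra hc
      have : i ∈ univ.filter (fun i => σ i = false) := Finset.mem_filter.2 ⟨Finset.mem_univ _, by simpa using hc⟩
      unfold nB at hk
      rw [Finset.card_eq_zero] at hk
      rw [hk] at this
      simp at this
    rw [h]
    omega
  | succ k ih =>
    intro σ hk
    have hne : (univ.filter (fun j => σ j = false)).Nonempty := by
      rw [← Finset.card_pos]
      unfold nB at hk
      omega
    obtain ⟨i, hi⟩ := hne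
    have hi' := (Finset.mem_filter.1 hi).2
    have h1 := nB_update σ i hi'
    have h2 : nB (Function.update σ i true) = k := by omega
    have h3 := ih (Function.update σ i true) h2
    have h4 := flip O (Function.update σ i true) i (Function.update_self ..)
    have h5 : Function.update (Function.update σ i true) i false = σ := by
      rw [Function.update_idem, ← hi', Function.update_eq_self]
    rw [h5] at h4
    omega

theorem nB_le {n : ℕ} (σ : Fin n → Bool) : nB σ ≤ n := by
  unfold nB
  exact (Finset.card_filter_le _ _).trans (by simp)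

theorem free_le (O : Outer m) (σ : Fin O.crossings.length → Bool) :
    (ofO O σ).free ≤ (ofO O (fun _ => true)).lam [] + O.crossings.length := by
  have h1 := Pool.Agent.N650.VU.free_le_lam (ofO O σ)
  have h2 := lam_all O (nB σ) σ rfl
  have h3 := nB_le σ
  omega

theorem bd_loops (O : Outer m) {N C : ℕ} (hN : O.crossings.length ≤ N) (hC : O.close.loops (fun _ => true) ≤ C) :
    Bd N (C + N) O := by
  refine ⟨hN, fun σ => ?_⟩
  have h1 := free_le O σ
  rw [lam_zero] at h1
  omega

theorem moment_at1 (F : ℤ[T;T⁻¹]) : moment 0 F = at1 F := by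
  induction F using LaurentPolynomial.induction_on' with
  | add p q hp hq => rw [moment_add, hp, hq, map_add]
  | C_mul_T n a =>
    rw [V7.moment_term, map_mul, at1_T, pow_zero]
    unfold at1
    rw [LaurentPolynomial.eval₂_C]
    simp

theorem at1_bracket {P : Type} [Fintype P] [DecidableEq P] (D : Diagram P) :
    at1 D.bracket = at1 D.fPoly ∨ at1 D.bracket = -at1 D.fPoly := by
  unfold Diagram.fPoly
  rw [map_mul, map_mul, at1_T, mul_one]
  split_ifs
  · left; rw [map_one, one_mul]
  · right; rw [map_neg, map_one]; ring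

theorem bd_at1 (hm : 0 < m) (O : Outer m) {N : ℕ} (hN : O.crossings.length ≤ N) (W : List (Bool × ℕ))
    (hW : ∀ x ∈ W, x.2 + 1 < m) (a : ℤ) (ha : a ≠ 0) (h : at1 (draw O W).close.fPoly = a) :
    Bd N (2 * a.natAbs + 2 * N + m) O := by
  refine ⟨hN, fun σ => ?_⟩
  have h1 := free_le O σ
  obtain ⟨κ, hκ1, hκ2⟩ := pieces hm O (Finset.range (m - 1)) (fun i hi => by
    rw [Finset.mem_range] at hi; omega)
  rw [Finset.card_range] at hκ2
  have hdvd := dvd_bracketO hm O W hW (Finset.range (m - 1)) (fun x hx => by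
    rw [Finset.mem_range]; have := hW x hx; omega) κ hκ1
  have h2 : (2 : ℤ) ^ κ ∣ 2 * a := by
    have h3 := map_dvd at1 hdvd
    rw [map_pow, map_mul, at1_dl] at h3
    have h4 : (2 : ℤ) ^ κ ∣ (-2) ^ κ := by
      rw [neg_pow]
      exact Dvd.intro_left _ rfl
    have h5 := h4.trans h3
    rcases at1_bracket (draw O W).close with h6 | h6
    · rw [h6, h] at h5
      have : (-2 : ℤ) * a = -(2 * a) := by ring
      rw [this, dvd_neg] at h5
      exact h5
    · rw [h6, h] at h5
      have : (-2 : ℤ) * -a = 2 * a := by ring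
      rw [this] at h5
      exact h5
  have h3 : 2 ^ κ ≤ 2 * a.natAbs := by
    have h4 := Int.natAbs_dvd_natAbs.2 h2
    rw [Int.natAbs_pow, Int.natAbs_mul] at h4
    exact Nat.le_of_dvd (by have := Int.natAbs_pos.2 ha; positivity) h4
  have h4 : κ < 2 ^ κ := Nat.lt_two_pow_self
  omega

/-- one order for all outsides with at most `N` crossings and the polynomial `F` -/
theorem uni (hm : 0 < m) (N r ℓ : ℕ) (F : ℤ[T;T⁻¹]) (hF : at1 F ≠ 0) : ∃ d : ℕ, ∀ O : Outer m,
    O.crossings.length ≤ N → ∀ w v : Fin r → List (Letter m), (∀ i, (w i).length ≤ ℓ) → (∀ i, (v i).length ≤ ℓ) →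
    ∀ n : Fin r → ℤ, (∀ j ≤ d, moment j (dia O (multiW w v n)).fPoly = moment j F) →
      (dia O (multiW w v n)).fPoly = F := by
  obtain ⟨d, hd⟩ := uni_bd hm N (2 * (at1 F).natAbs + 2 * N + m) r ℓ F
  refine ⟨d, fun O hO w v hw hv n hn => ?_⟩
  have h0 := hn 0 (Nat.zero_le _)
  rw [moment_at1, moment_at1] at h0
  exact hd O (bd_at1 hm O hO _ (map_lt _) _ hF h0) w v hw hv n hn

theorem uni_pairs {m' : ℕ} (hm : 0 < m) (hm' : 0 < m') (N C r ℓ : ℕ) : ∃ d : ℕ,
    ∀ (O : Outer m) (O' : Outer m'), O.crossings.length ≤ N → O'.crossings.length ≤ N →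
    O.close.loops (fun _ => true) ≤ C → O'.close.loops (fun _ => true) ≤ C →
    ∀ (w v : Fin r → List (Letter m)) (w' v' : Fin r → List (Letter m')), (∀ i, (w i).length ≤ ℓ) →
      (∀ i, (v i).length ≤ ℓ) → (∀ i, (w' i).length ≤ ℓ) → (∀ i, (v' i).length ≤ ℓ) → ∀ n n' : Fin r → ℤ,
      (∀ j ≤ d, moment j (dia O (multiW w v n)).fPoly = moment j (dia O' (multiW w' v' n')).fPoly) →
        (dia O (multiW w v n)).fPoly = (dia O' (multiW w' v' n')).fPoly := by
  obtain ⟨d, hd⟩ := uni_bd_pairs (m := m) (m' := m') hm hm' N (C + N) r ℓ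
  exact ⟨d, fun O O' hN hN' hC hC' => hd O O' (bd_loops O hN hC) (bd_loops O' hN' hC')⟩

end Pool.Agent.N569.VT
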