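import Pool.Agent.N569.VT.Syl
import Pool.Agent.N571.TLF.Contact

/-!
# One order of contact
-/

set_option autoImplicit false

namespace Pool.Agent.N569.VT

open Pool.Agent.H891R2.Jones Pool.Agent.W639.RB Pool.Agent.TH561 Pool.Agent.N569.TW Finset LaurentPolynomial
  Pool.Agent.Y463.SK Pool.Agent.H832R3.VJ Pool.Agent.N571.TLF Pool.Agent.N569.TC

variable {m : ℕ}

theorem at1_sum (F : ℤ[T;T⁻¹]) : at1 F = F.coeff.sum fun _ c => c := by
  rw [← moment_at1]
  unfold moment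
  simp

theorem uni_contact (hm : 0 < m) (N r ℓ : ℕ) (F : ℤ[T;T⁻¹]) (hF : (F.coeff.sum fun _ c => c) ≠ 0) : ∃ M : ℕ,
    ∀ O : Outer m, O.crossings.length ≤ N → ∀ w v : Fin r → List (Letter m), (∀ i, (w i).length ≤ ℓ) →
      (∀ i, (v i).length ≤ ℓ) → ∀ n : Fin r → ℤ,
      (T 1 - 1 : ℤ[T;T⁻¹]) ^ M ∣ (dia O (multiW w v n)).fPoly - F → (dia O (multiW w v n)).fPoly = F := by
  obtain ⟨d, hd⟩ := uni hm N r ℓ F (by rw [at1_sum]; exact hF)
  exact ⟨d + 1, fun O hO w v hw hv n h => hd O hO w v hw hv n fun j hj => moment_eq_of_dvd (by omega) h⟩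

theorem order_contact (hm : 0 < m) (N r : ℕ) : ∃ M : ℕ, ∀ O : Outer m, O.crossings.length ≤ N →
    ∀ S : List (Sy × ℕ), (∀ p ∈ S, p.1.Fits m) → S.length ≤ r →
      (T 1 - 1 : ℤ[T;T⁻¹]) ^ M ∣ (draw O (sw S)).close.fPoly - 1 → (draw O (sw S)).close.fPoly = 1 := by
  have h1 := fun r' : ℕ => uni hm N r' (m * m) 1 (by rw [map_one]; exact one_ne_zero)
  choose d hd using h1
  refine ⟨(range (r + 1)).sup d + 1, fun O hO S hS hr hdvd => ?_⟩
  have h2 := hd S.length O hO (wS m S) (fun _ => []) (fun i => sy_len hm _ (hS _ (List.get_mem _ _)))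
    (fun _ => by simp) (nS S)
  have e : (dia O (multiW (wS m S) (fun _ => []) (nS S))).fPoly = (draw O (sw S)).close.fPoly := by
    have h3 := congrArg (fun W => (draw O W).close.fPoly) (back_S (m := m) S hS)
    exact h3
  rw [e] at h2
  apply h2
  intro j hj
  have h4 : d S.length ≤ (range (r + 1)).sup d := Finset.le_sup (f := d) (Finset.mem_range.2 (by omega))
  exact moment_eq_of_dvd (by omega) hdvd

end Pool.Agent.N569.VT
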