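import Pool.Agent.N569.TW.Final

/-!
# Linkages: the parts of diagrams and states outside a box
-/

set_option autoImplicit false

namespace Pool.Agent.N569.VT

open Pool.Agent.H891R2.Jones Pool.Agent.W639.RB Pool.Agent.TH561 Pool.Agent.N569.TW Finset LaurentPolynomial

/-- a linkage: a finite set of points, the left ends `l j` and the right ends `u j` (`j < m`) and a relation; the
points in relation are joined -/
structure Lk (m : ℕ) where
  Q : Type
  [fin : Fintype Q]
  [dec : DecidableEq Q]
  l : Fin m → Q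
  u : Fin m → Q
  R : Q → Q → Prop

attribute [instance] Lk.fin Lk.dec

namespace Lk

variable {m : ℕ}

/-- the number of the colourings with `N` colours, constant on joined points, with the given colours at the ends -/
noncomputable def mat (X : Lk m) (N : ℕ) : Matrix (Fin m → Fin N) (Fin m → Fin N) ℂ :=
  Matrix.of fun x y => ∑ c : X.Q → Fin N, ind (c ∘ X.l = x ∧ c ∘ X.u = y ∧ ∀ p q, X.R p q → c p = c q)

/-- the relation of the closure (every left end is joined with the right end of the same number) -/
def Rc (X : Lk m) (p q : X.Q) : Prop := X.R p q ∨ ∃ j, p = X.l j ∧ q = X.u j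

/-- the number of the pieces of the closure -/
noncomputable def loops (X : Lk m) : ℕ := Nat.card (Quot X.Rc)

/-- the product: the right ends of the first factor are joined with the left ends of the second one -/
def mul (X Y : Lk m) : Lk m where
  Q := X.Q ⊕ Y.Q
  l := Sum.inl ∘ X.l
  u := Sum.inr ∘ Y.u
  R := fun p q => (∃ a b, p = Sum.inl a ∧ q = Sum.inl b ∧ X.R a b) ∨
    (∃ a b, p = Sum.inr a ∧ q = Sum.inr b ∧ Y.R a b) ∨ ∃ j, p = Sum.inl (X.u j) ∧ q = Sum.inr (Y.l j)

/-- the unit -/
def one (m : ℕ) : Lk m where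
  Q := Fin m
  l := id
  u := id
  R := fun _ _ => False

/-- the generator `e_i` -/
def e (m i : ℕ) : Lk m where
  Q := Fin m ⊕ Fin m
  l := Sum.inl
  u := Sum.inr
  R := fun p q => (∃ (h : i + 1 < m), p = Sum.inl ⟨i, Nat.lt_of_succ_lt h⟩ ∧ q = Sum.inl ⟨i+1, h⟩) ∨
    (∃ (h : i + 1 < m), p = Sum.inr ⟨i, Nat.lt_of_succ_lt h⟩ ∧ q = Sum.inr ⟨i+1, h⟩) ∨
    ∃ j : Fin m, (j : ℕ) ≠ i ∧ (j : ℕ) ≠ i + 1 ∧ p = Sum.inl j ∧ q = Sum.inr j

/-- a word of generators -/
def word (m : ℕ) : List ℕ → Lk m
  | [] => one m
  | i :: L => (e m i).mul (word m L)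

/-- the number of the pieces if the word `L` is inserted -/
noncomputable def lam (X : Lk m) (L : List ℕ) : ℕ := (X.mul (word m L)).loops

/-- the number of the `2`-colourings of the closure -/
noncomputable def cols (X : Lk m) : Finset (X.Q → Fin 2) := by
  classical exact {c | ∀ p q, X.Rc p q → c p = c q}

end Lk

/-- the coefficient `c` of the word `L` is small, in every linkage -/
def BndL (m : ℕ) (c : ℤ[T;T⁻¹]) (L : List ℕ) (E : ℤ) : Prop :=
  ∀ X : Lk m, Dg c (E + 2 * X.lam [] - 2 * X.lam L)

/-- an expansion of the matrix of a braid word on the strands `k, …, k + n - 1` -/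
structure RepL (m k n : ℕ) (W : List (Bool × ℕ)) (w : ℤ) (q : ℕ) (S : List (ℤ[T;T⁻¹] × List ℕ)) : Prop where
  eq : ∀ N hN, MR (Ar N) m N W = ev N hN (T w) • 1 + evS m N hN S
  ne : ∀ t ∈ S, t.2 ≠ []
  mem : ∀ t ∈ S, ∀ i ∈ t.2, k ≤ i ∧ i + 1 < k + n
  bnd : ∀ t ∈ S, BndL m t.1 t.2 (w + 4 * q)

/-- the linkage of the state `σ` of the outside `O` of a box (a right end is a point where a strand enters the
box at its lower side) -/
def ofO {m : ℕ} (O : Outer m) (σ : Fin O.crossings.length → Bool) : Lk m where
  Q := O.P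
  l := O.upper
  u := O.lower
  R := (⟨O.arcs, O.crossings⟩ : Diagram O.P).Joined σ

/-- the pieces of the diagram start and end alike, up to one: every set of marked points contains about as many
starts as ends -/
def Near {P : Type} (D : Diagram P) : Prop :=
  ∀ C : P → Bool, D.starts.countP (fun p => C p) ≤ D.ends.countP (fun p => C p) + 1 ∧
    D.ends.countP (fun p => C p) ≤ D.starts.countP (fun p => C p) + 1

end Pool.Agent.N569.VT
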