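import Pool.Agent.N569.VT.Defs
import Pool.Agent.H832R3.TW.E

/-!
# Statements (work in progress, do not import in results)
-/

set_option autoImplicit false

namespace Pool.Agent.N569.VT.Stm

open Pool.Agent.H891R2.Jones Pool.Agent.W639.RB Pool.Agent.TH561 Pool.Agent.N569.TW Pool.Agent.N569.VT
  Finset LaurentPolynomial

variable {m : ℕ}

/-! ### VT1: linkages and matrices -/

/-- VT1 (1) -/
theorem mat_mul (X Y : Lk m) (N : ℕ) : (X.mul Y).mat N = X.mat N * Y.mat N := sorry

/-- VT1 (2) -/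
theorem mat_one (N : ℕ) : (Lk.one m).mat N = 1 := sorry

/-- VT1 (3) -/
theorem mat_e (i : ℕ) (hi : i + 1 < m) (N : ℕ) : (Lk.e m i).mat N = KK m N i := sorry

/-- VT1 (4) -/
theorem trace_mat (X : Lk m) (N : ℕ) : Matrix.trace (X.mat N) = (N : ℂ) ^ X.loops := sorry

/-- VT1 (5) -/
theorem trace_lam (X : Lk m) (L : List ℕ) (hL : ∀ i ∈ L, i + 1 < m) (N : ℕ) :
    Matrix.trace (X.mat N * WP (KK m N) L) = (N : ℂ) ^ X.lam L := sorry

/-! ### VT2: two colours -/

/-- VT2 (1) -/
theorem card_cols (X : Lk m) : #X.cols = 2 ^ X.loops := sorry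

/-- VT2 (2): a general exchange of two pairs of joined points -/
theorem exch {Q : Type} [Fintype Q] [DecidableEq Q] (V : AddSubgroup (Q → Fin 2)) (a b c d : Q)
    (A B : Finset (Q → Fin 2)) (hA : ∀ f, f ∈ A ↔ f ∈ V ∧ f a = f b ∧ f c = f d)
    (hB : ∀ f, f ∈ B ↔ f ∈ V ∧ f b = f c ∧ f d = f a) : #B ≤ 2 * #A := sorry

/-- VT2 (3): insertion of a generator -/
theorem lam_add (X : Lk m) (L : List ℕ) (hL : ∀ i ∈ L, i + 1 < m) (i : ℕ) (hi : i + 1 < m) :
    X.lam (L ++ [i]) ≤ X.lam L + 1 := sorry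

/-- VT2 (4): `r` linear conditions -/
theorem cut {Q : Type} [Fintype Q] [DecidableEq Q] (V : AddSubgroup (Q → Fin 2)) (r : List (Q × Q))
    (A B : Finset (Q → Fin 2)) (hA : ∀ f, f ∈ A ↔ f ∈ V)
    (hB : ∀ f, f ∈ B ↔ f ∈ V ∧ ∀ x ∈ r, f x.1 = f x.2) : #A ≤ 2 ^ r.length * #B := sorry

/-! ### VT3: expansions of words with bounds in all linkages; VT1 and VT2 may be used as hypotheses -/

/-- VT3 (1) -/
theorem RepL_box {k n : ℕ} {U : List (Bool × ℕ)} {w : ℤ} {q : ℕ} {S : List (ℤ[T;T⁻¹] × List ℕ)}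
    (hkn : k + (n + 2) ≤ m) (h : RepL m k (n + 2) U w q S) (a : ℕ) :
    ∃ S', RepL m k (n + 2) (U ++ TW true (n + 2) k a) (w + a * ((n + 2) * (n + 1))) (q - (n + 2) * a) S' := sorry

/-- VT3 (2) -/
theorem repL (t : Tw) : ∀ n k, t.Fits n k → k + n ≤ m → ∃ S, RepL m k n t.word (expo t.word) t.debt S := sorry

/-! ### VT4: the bracket as a sum over the states of the outside -/

/-- VT4 (1) -/
theorem bracket_ev (hm : 0 < m) (O : Outer m) (W : List (Bool × ℕ)) (hW : ∀ x ∈ W, x.2 + 1 < m) (N : ℕ) (hN : 3 ≤ N) :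
    ev N hN (dl * (draw O W).close.bracket) =
      ∑ σ : Fin O.crossings.length → Bool, ev N hN (T (Diagram.weight σ)) *
        Matrix.trace ((ofO O σ).mat N * MR (Ar N) m N W) := sorry

/-- VT4 (2) -/
theorem bracket_repL (hm : 0 < m) (O : Outer m) (W : List (Bool × ℕ)) (hW : ∀ x ∈ W, x.2 + 1 < m) {w : ℤ} {q : ℕ}
    {S : List (ℤ[T;T⁻¹] × List ℕ)} (h : RepL m 0 m W w q S) :
    dl * (draw O W).close.bracket = ∑ σ : Fin O.crossings.length → Bool, T (Diagram.weight σ) *
      (T w * dl ^ (ofO O σ).lam [] + (S.map (fun t => t.1 * dl ^ (ofO O σ).lam t.2)).sum) := sorry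

/-- VT4 (3) -/
theorem bracket_states (hm : 0 < m) (O : Outer m) (W : List (Bool × ℕ)) (hW : ∀ x ∈ W, x.2 + 1 < m) :
    dl * (draw O W).close.bracket = ∑ σ : Fin O.crossings.length → Bool, T (Diagram.weight σ) *
      ((terms W).map (fun t : ℤ × List ℕ => (T t.1 * dl ^ (ofO O σ).lam t.2 : ℤ[T;T⁻¹]))).sum := sorry

/-- VT4 (4) -/
theorem lam_nil (O : Outer m) (σ : Fin O.crossings.length → Bool) : (ofO O σ).lam [] = O.close.loops σ := sorry

/-! ### VT5: positive outsides -/

/-- VT5 (1) -/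
theorem near_closed {P : Type} [Fintype P] [DecidableEq P] (D : Diagram P) (h : D.IsClosed) : Near D := sorry

/-- VT5 (2) -/
theorem near_knotoid {P : Type} [Fintype P] [DecidableEq P] (D : Diagram P)
    (h : Pool.Agent.H832R3.TW.IsKnotoid D) : Near D := sorry

/-- VT5 (3): the first change of a smoothing does not increase the number of the pieces -/
theorem first_flip (O : Outer m) (hO : Near O.close) (hpos : ∀ x ∈ O.crossings, x.sign = 1)
    (i : Fin O.crossings.length) :
    (ofO O (Function.update (fun _ => true) i false)).lam [] ≤ (ofO O (fun _ => true)).lam [] := sorry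

/-- VT5 (4): every change of a smoothing increases the number of the pieces at most by `1` -/
theorem flip (O : Outer m) (σ : Fin O.crossings.length → Bool) (i : Fin O.crossings.length) (hi : σ i = true) :
    (ofO O (Function.update σ i false)).lam [] ≤ (ofO O σ).lam [] + 1 := sorry

/-- VT5 (5): a generator in the box -/
theorem first_e (O : Outer m) (hO : Near O.close) (hup : ∀ j, O.up j = true) (hpos : ∀ x ∈ O.crossings, x.sign = 1)
    (i : ℕ) (hi : i + 1 < m) : (ofO O (fun _ => true)).lam [i] ≤ (ofO O (fun _ => true)).lam [] := sorry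

/-! ### VT6: the pieces of the diagram -/

/-- VT6: there is a number `κ` (of the pieces of the whole diagram) such that every state has at least `κ` pieces,
and the state without `B`-smoothings has at most `κ + n + #C` -/
theorem pieces (hm : 0 < m) (O : Outer m) (C : Finset ℕ) (hCm : ∀ i ∈ C, i + 1 < m) : ∃ κ : ℕ,
    (∀ (σ : Fin O.crossings.length → Bool) (L : List ℕ), (∀ i ∈ L, i ∈ C) → κ ≤ (ofO O σ).lam L) ∧
    (ofO O (fun _ => true)).lam [] ≤ κ + O.crossings.length + #C := sorry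

/-- VT7: closedness and writhe -/
theorem writhe (O : Outer m) (hup : ∀ j, O.up j = true) (W : List (Bool × ℕ)) (hW : ∀ x ∈ W, x.2 + 1 < m) :
    (draw O W).close.writhe = O.close.writhe + expo W := sorry

end Pool.Agent.N569.VT.Stm
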