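import Pool.Agent.N569.VT.Typ
import Pool.Agent.N571.TLF.Pairs

/-!
# Statements (work in progress, do not import in results)
-/

set_option autoImplicit false

namespace Pool.Agent.N569.VT.Stm2

open Pool.Agent.H891R2.Jones Pool.Agent.W639.RB Pool.Agent.TH561 Pool.Agent.N569.TW Pool.Agent.N569.VT
  Finset LaurentPolynomial Pool.Agent.Y463.SK Pool.Agent.H832R3.VJ Pool.Agent.N571.TLF

variable {m : ℕ}

/-! ### VU1: types -/

/-- VU1 (1) -/
theorem mat_type (X Y : Lk m) (h : X.part = Y.part) (h' : X.free = Y.free) (N : ℕ) : X.mat N = Y.mat N := sorry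

/-- VU1 (2) -/
theorem free_le (X : Lk m) : X.free ≤ X.loops := sorry

/-- VU1 (3) -/
theorem free_le_lam (X : Lk m) : X.free ≤ X.lam [] := sorry

/-! ### VU2: the writhe for arbitrary directions -/

/-- VU2 -/
theorem writhe_up (O O' : Outer m) (h : O.up = O'.up) (W : List (Bool × ℕ)) (hW : ∀ x ∈ W, x.2 + 1 < m) :
    (draw O W).close.writhe - O.close.writhe = (draw O' W).close.writhe - O'.close.writhe := sorry

/-! ### VU3: outsides which look alike -/

/-- VU3 -/
theorem fPoly_alike (hm : 0 < m) (O O' : Outer m) (h : Alike O O') (W : List (Bool × ℕ))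
    (hW : ∀ x ∈ W, x.2 + 1 < m) : (draw O W).close.fPoly = (draw O' W).close.fPoly := sorry

end Pool.Agent.N569.VT.Stm2
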