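import Pool.Agent.N569.VT.Bnd
import Pool.Agent.N569.TC.Ord

/-!
# Syllables of words with full twists
-/

set_option autoImplicit false

namespace Pool.Agent.N569.VT

open Pool.Agent.H891R2.Jones Pool.Agent.W639.RB Pool.Agent.TH561 Pool.Agent.N569.TW Finset LaurentPolynomial
  Pool.Agent.Y463.SK Pool.Agent.H832R3.VJ Pool.Agent.N571.TLF

/-- a syllable: a letter `σ_i^{±1}`, or one positive full twist of the strands `k, …, k + n - 1` -/
inductive Sy : Type
  | letter (b : Bool) (i : ℕ) : Sy
  | twist (n k : ℕ) : Sy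

/-- the braid word of a syllable -/
def Sy.word : Sy → List (Bool × ℕ)
  | .letter b i => [(b, i)]
  | .twist n k => TW true n k 1

/-- the syllable is on the strands `0, …, m - 1` -/
def Sy.Fits (m : ℕ) : Sy → Prop
  | .letter _ i => i + 1 < m
  | .twist n k => k + n ≤ m

/-- the braid word of a product of powers of syllables -/
def sw (S : List (Sy × ℕ)) : List (Bool × ℕ) :=
  (S.map (fun p => (List.replicate p.2 p.1.word).flatten)).flatten

/-- a further letter at the left; a power of one letter is one syllable -/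
def addL (b : Bool) (i : ℕ) : List (Sy × ℕ) → List (Sy × ℕ)
  | [] => [(Sy.letter b i, 1)]
  | (Sy.letter b' i', n) :: S =>
    if b = b' ∧ i = i' then (Sy.letter b' i', n + 1) :: S else (Sy.letter b i, 1) :: (Sy.letter b' i', n) :: S
  | (Sy.twist n k, a) :: S => (Sy.letter b i, 1) :: (Sy.twist n k, a) :: S

theorem sw_cons (p : Sy × ℕ) (S : List (Sy × ℕ)) : sw (p :: S) = (List.replicate p.2 p.1.word).flatten ++ sw S := by
  simp [sw]

theorem sw_append (S S' : List (Sy × ℕ)) : sw (S ++ S') = sw S ++ sw S' := by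
  simp [sw]

theorem sw_addL (b : Bool) (i : ℕ) (S : List (Sy × ℕ)) : sw (addL b i S) = (b, i) :: sw S := by
  rcases S with _ | ⟨⟨s, n⟩, S⟩
  · simp [addL, sw, Sy.word]
  · rcases s with ⟨b', i'⟩ | ⟨n', k'⟩
    · rw [addL]
      split_ifs with h
      · obtain ⟨rfl, rfl⟩ := h
        rw [sw_cons, sw_cons, List.replicate_succ, List.flatten_cons]
        simp [Sy.word]
      · rw [sw_cons]
        simp [Sy.word]
    · rw [addL, sw_cons]
      simp [Sy.word]

theorem fits_addL {m : ℕ} (b : Bool) (i : ℕ) (hi : i + 1 < m) (S : List (Sy × ℕ)) (h : ∀ p ∈ S, p.1.Fits m) :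
    ∀ p ∈ addL b i S, p.1.Fits m := by
  rcases S with _ | ⟨⟨s, n⟩, S⟩
  · intro p hp
    simp only [addL, List.mem_singleton] at hp
    rw [hp]; exact hi
  · rcases s with ⟨b', i'⟩ | ⟨n', k'⟩
    · rw [addL]
      split_ifs with h'
      · intro p hp
        rcases List.mem_cons.1 hp with rfl | hp
        · exact h (Sy.letter b' i', n) List.mem_cons_self
        · exact h _ (List.mem_cons_of_mem _ hp)
      · intro p hp
        rcases List.mem_cons.1 hp with rfl | hp
        · exact hi
        · exact h _ hp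
    · intro p hp
      rw [addL] at hp
      rcases List.mem_cons.1 hp with rfl | hp
      · exact hi
      · exact h _ hp

end Pool.Agent.N569.VT

namespace Pool.Agent.N569.TW

open Pool.Agent.H891R2.Jones Pool.Agent.W639.RB Pool.Agent.TH561 Pool.Agent.N569.VT

/-- the syllables of a word with boxes, with their exponents -/
def Tw.syl : Tw → List (Sy × ℕ)
  | nil => []
  | letter b i t => addL b i t.syl
  | box n k a u t => u.syl ++ (Sy.twist n k, a) :: t.syl

theorem Tw.sw_syl (t : Tw) : sw t.syl = t.word := by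
  induction t with
  | nil => rfl
  | letter b i t ih => rw [syl, sw_addL, ih, word]
  | box n k a u t ihu iht =>
    rw [syl, sw_append, sw_cons, ihu, iht, word, List.append_assoc]
    congr 2
    show (List.replicate a (TW true n k 1)).flatten = TW true n k a
    rw [← Pool.Agent.N569.TC.TW_rep]

theorem Tw.syl_fits {m : ℕ} (t : Tw) : ∀ n k, t.Fits n k → k + n ≤ m → ∀ p ∈ t.syl, p.1.Fits m := by
  induction t with
  | nil => intro n k _ _ p hp; simp [syl] at hp
  | letter b i t ih =>
    rintro n k ⟨h1, h2, h3⟩ hm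
    rw [syl]
    exact fits_addL b i (by omega) _ (ih n k h3 hm)
  | box n' k' a u t ihu iht =>
    rintro n k ⟨h1, h2, h3, h4, h5, h6⟩ hm p hp
    rw [syl, List.mem_append, List.mem_cons] at hp
    rcases hp with hp | rfl | hp
    · exact ihu n' k' h5 (by omega) p hp
    · show k' + n' ≤ m
      omega
    · exact iht n k h6 hm p hp

end Pool.Agent.N569.TW

namespace Pool.Agent.N569.VT

open Pool.Agent.H891R2.Jones Pool.Agent.W639.RB Pool.Agent.TH561 Pool.Agent.N569.TW Finset LaurentPolynomial
  Pool.Agent.Y463.SK Pool.Agent.H832R3.VJ Pool.Agent.N571.TLF Pool.Agent.N569.TC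

variable {m : ℕ}

/-- the diagram with the word `W` in the box of `O`, with the finite set of its marked points -/
def cb (O : Outer m) (W : List (Bool × ℕ)) : Dia := ⟨(draw O W).P, inferInstance, (draw O W).close⟩

theorem cb_eq (O : Outer m) (w : List (Letter m)) : DD O w = cb O (back m w) := rfl

theorem sy_mem (x : Sy) (hx : x.Fits m) : ∀ y ∈ x.word, y.2 + 1 < m := by
  rcases x with ⟨b, i⟩ | ⟨n, k⟩
  · intro y hy
    simp only [Sy.word, List.mem_singleton] at hy
    rw [hy]; exact hx
  · exact TW_mem true n k 1 hx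

theorem sy_len (hm : 0 < m) (x : Sy) (hx : x.Fits m) : (toW m x.word).length ≤ m * m := by
  refine (List.length_filterMap_le _ _).trans ?_
  rcases x with ⟨b, i⟩ | ⟨n, k⟩
  · show 1 ≤ m * m
    exact Nat.mul_pos hm hm
  · show (TW true n k 1).length ≤ m * m
    rw [TW_length, one_mul]
    have h : k + n ≤ m := hx
    exact Nat.mul_le_mul (by omega) (by omega)

/-- the words of the syllables -/
def wS (m : ℕ) (S : List (Sy × ℕ)) (i : Fin S.length) : List (Letter m) := toW m (S.get i).1.word

def nS (S : List (Sy × ℕ)) (i : Fin S.length) : ℤ := ((S.get i).2 : ℤ)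

theorem back_S (S : List (Sy × ℕ)) (hS : ∀ p ∈ S, p.1.Fits m) :
    back m (multiW (wS m S) (fun _ => []) (nS S)) = sw S := by
  unfold multiW
  rw [back_flatten, List.map_ofFn, sw]
  congr 1
  have h : (back m ∘ fun i => powW (wS m S i) (nS S i) ++ []) =
      (fun p : Sy × ℕ => (List.replicate p.2 p.1.word).flatten) ∘ S.get := by
    funext i
    show back m (powW (wS m S i) (((S.get i).2 : ℕ) : ℤ) ++ []) = _
    rw [List.append_nil, back_powW]
    unfold wS
    rw [back_toW _ (sy_mem _ (hS _ (List.get_mem _ _)))]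
    rfl
  rw [h, ← List.map_ofFn, List.ofFn_get]

/-- one order for all outsides with at most `N` crossings and all products of at most `r` syllables -/
theorem order_S (hm : 0 < m) (N r : ℕ) : ∃ d : ℕ, ∀ O : Outer m, O.crossings.length ≤ N →
    ∀ S : List (Sy × ℕ), (∀ p ∈ S, p.1.Fits m) → S.length ≤ r → (draw O (sw S)).close.fPoly ≠ 1 →
      Separated d (cb O (sw S)) unknot := by
  have h1 := fun r' : ℕ => uni hm N r' (m * m) 1 (by rw [map_one]; exact one_ne_zero)
  choose d hd using h1
  refine ⟨(range (r + 1)).sup d, fun O hO S hS hr hne => ?_⟩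
  by_contra hsep
  have h2 := hd S.length O hO (wS m S) (fun _ => []) (fun i => sy_len hm _ (hS _ (List.get_mem _ _)))
    (fun _ => by simp) (nS S)
  have e : (dia O (multiW (wS m S) (fun _ => []) (nS S))).fPoly = (draw O (sw S)).close.fPoly := by
    have h3 := congrArg (fun W => (draw O W).close.fPoly) (back_S (m := m) S hS)
    exact h3
  rw [e] at h2
  apply hne
  apply h2
  intro j hj
  by_contra hc
  refine hsep (separated_of_moment (j := j) (hj.trans (Finset.le_sup (f := d) (Finset.mem_range.2 (by omega)))) ?_)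
  rw [fPoly_unknot]
  exact hc

/-- one order for the pairs -/
theorem order_SS {m' : ℕ} (hm : 0 < m) (hm' : 0 < m') (N C r : ℕ) : ∃ d : ℕ,
    ∀ (O : Outer m) (O' : Outer m'), O.crossings.length ≤ N → O'.crossings.length ≤ N →
    O.close.loops (fun _ => true) ≤ C → O'.close.loops (fun _ => true) ≤ C →
    ∀ S S' : List (Sy × ℕ), (∀ p ∈ S, p.1.Fits m) → (∀ p ∈ S', p.1.Fits m') → S.length ≤ r → S'.length ≤ r →
      (draw O (sw S)).close.fPoly ≠ (draw O' (sw S')).close.fPoly → Separated d (cb O (sw S)) (cb O' (sw S')) := by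
  -- pad the lists to the same length
  have hpad : ∀ {m : ℕ} (S : List (Sy × ℕ)), (∀ p ∈ S, p.1.Fits m) → S.length ≤ r →
      ∃ S₁ : List (Sy × ℕ), (∀ p ∈ S₁, p.1.Fits m) ∧ S₁.length = r ∧ sw S₁ = sw S := by
    intro m S hS hr
    refine ⟨S ++ List.replicate (r - S.length) (Sy.twist 0 0, 0), ?_, ?_, ?_⟩
    · intro p hp
      rcases List.mem_append.1 hp with hp | hp
      · exact hS p hp
      · rw [List.eq_of_mem_replicate hp]
        show 0 + 0 ≤ m
        omega
    · rw [List.length_append, List.length_replicate]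
      omega
    · rw [sw_append]
      have : sw (List.replicate (r - S.length) (Sy.twist 0 0, 0)) = [] := by
        simp [sw]
      rw [this, List.append_nil]
  obtain ⟨d, hd⟩ := uni_pairs (m := m) (m' := m') hm hm' N C r (m * m + m' * m')
  refine ⟨d, fun O O' hO hO' hC hC' S S' hS hS' hr hr' hne => ?_⟩
  obtain ⟨S₁, h1, h2, h3⟩ := hpad S hS hr
  obtain ⟨S₂, h4, h5, h6⟩ := hpad S' hS' hr'
  rw [← h3, ← h6] at hne ⊢
  clear h3 h6 hr hr' hS hS' S S'
  by_contra hsep
  subst h2
  have e : (dia O (multiW (wS m S₁) (fun _ => []) (nS S₁))).fPoly = (draw O (sw S₁)).close.fPoly :=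
    congrArg (fun W => (draw O W).close.fPoly) (back_S (m := m) S₁ h1)
  have e' : (dia O' (multiW (wS m' S₂) (fun _ => []) (nS S₂))).fPoly = (draw O' (sw S₂)).close.fPoly :=
    congrArg (fun W => (draw O' W).close.fPoly) (back_S (m := m') S₂ h4)
  have h7 := hd O O' hO hO' hC hC' (wS m S₁) (fun _ => []) (fun i => wS m' S₂ (Fin.cast h5.symm i)) (fun _ => [])
    (fun i => (sy_len hm _ (h1 _ (List.get_mem _ _))).trans (Nat.le_add_right _ _)) (fun _ => by simp)
    (fun i => (sy_len hm' _ (h4 _ (List.get_mem _ _))).trans (Nat.le_add_left _ _)) (fun _ => by simp)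
    (nS S₁) (fun i => nS S₂ (Fin.cast h5.symm i))
  have e'' : multiW (fun i => wS m' S₂ (Fin.cast h5.symm i)) (fun _ => []) (fun i => nS S₂ (Fin.cast h5.symm i)) =
      multiW (wS m' S₂) (fun _ => []) (nS S₂) := by
    unfold multiW
    congr 1
    exact (List.ofFn_congr h5 (fun i => powW (wS m' S₂ i) (nS S₂ i) ++ [])).symm
  rw [e'', e, e'] at h7
  apply hne
  apply h7
  intro j hj
  by_contra hc
  exact hsep (separated_of_moment (j := j) hj hc)

end Pool.Agent.N569.VT
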