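import Pool.Agent.N569.VT.All

/-!
# The top exponent of the bracket of a diagram with twisted boxes
-/

set_option autoImplicit false

namespace Pool.Agent.N569.VT

open Pool.Agent.H891R2.Jones Pool.Agent.W639.RB Pool.Agent.TH561 Pool.Agent.N569.TW Finset LaurentPolynomial


variable {m : ℕ}

theorem mat_word (L : List ℕ) (hL : ∀ i ∈ L, i + 1 < m) (N : ℕ) : (Lk.word m L).mat N = WP (KK m N) L := by
  induction L with
  | nil => rw [WP_nil]; exact mat_one N
  | cons i L ih =>
    have h : Lk.word m (i :: L) = (Lk.e m i).mul (Lk.word m L) := rfl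
    rw [h, mat_mul, mat_e i (hL i List.mem_cons_self), ih (fun x hx => hL x (List.mem_cons_of_mem _ hx)), WP_cons]

theorem pow_inj {a b : ℕ} (h : ((2 : ℕ) : ℂ) ^ a = ((2 : ℕ) : ℂ) ^ b) : a = b := by
  have h8 : (2 : ℕ) ^ a = 2 ^ b := by exact_mod_cast h
  exact Nat.pow_right_injective le_rfl h8

theorem lam_mul (X : Lk m) (L L' : List ℕ) (hL : ∀ i ∈ L, i + 1 < m) (hL' : ∀ i ∈ L', i + 1 < m) :
    (X.mul (Lk.word m L)).lam L' = X.lam (L ++ L') := by
  apply pow_inj
  rw [← trace_lam _ L' hL' 2, ← trace_lam X (L ++ L') (fun i hi => by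
    rcases List.mem_append.1 hi with h | h
    · exact hL i h
    · exact hL' i h) 2, mat_mul, mat_word L hL, WP_append, mul_assoc]

theorem lam_cons_cons (X : Lk m) (i : ℕ) (L : List ℕ) (hL : ∀ x ∈ i :: L, x + 1 < m) :
    X.lam ([i] ++ i :: L) = X.lam (i :: L) + 1 := by
  apply pow_inj
  have hi := hL i List.mem_cons_self
  have h4 : ∀ x ∈ [i] ++ i :: L, x + 1 < m := fun x hx => by
    rcases List.mem_append.1 hx with hx | hx
    · rw [List.mem_singleton] at hx; rw [hx]; exact hi
    · exact hL x hx
  rw [← trace_lam X _ h4 2, WP_append, WP_cons, WP_cons, WP_nil, mul_one, ← mul_assoc (KK m 2 i),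
    (isTL_KK m 2).sq i hi, smul_mul_assoc, Matrix.mul_smul, Matrix.trace_smul, ← WP_cons,
    trace_lam X _ hL 2, smul_eq_mul, pow_succ']

/-- the conditions at the top of the bracket: the state without `B`-smoothings, and one change of it -/
structure Good (O : Outer m) : Prop where
  flip : ∀ i : Fin O.crossings.length, (ofO O (Function.update (fun _ => true) i false)).lam [] ≤
    (ofO O (fun _ => true)).lam []
  e : ∀ i, i + 1 < m → (ofO O (fun _ => true)).lam [i] ≤ (ofO O (fun _ => true)).lam []

/-- the number of the `B`-smoothings of a state -/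
def nB {n : ℕ} (σ : Fin n → Bool) : ℕ := #(univ.filter (fun i => σ i = false))

theorem weight_eq {n : ℕ} (σ : Fin n → Bool) : Diagram.weight σ = n - 2 * nB σ := by
  unfold Diagram.weight nB
  have h : ∀ i : Fin n, (if σ i then (1 : ℤ) else -1) = 1 - 2 * (if σ i = false then 1 else 0) := by
    intro i
    cases σ i <;> simp
  rw [Finset.sum_congr rfl fun i _ => h i, Finset.sum_sub_distrib, ← Finset.mul_sum, Finset.sum_boole]
  simp

theorem nB_update {n : ℕ} (σ : Fin n → Bool) (i : Fin n) (hi : σ i = false) :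
    nB (Function.update σ i true) + 1 = nB σ := by
  unfold nB
  have h : univ.filter (fun j => σ j = false) =
      insert i (univ.filter (fun j => Function.update σ i true j = false)) := by
    ext j
    rw [Finset.mem_insert, Finset.mem_filter, Finset.mem_filter]
    by_cases hj : j = i
    · rw [hj]; simp [hi]
    · simp [hj, Function.update_of_ne hj]
  rw [h, Finset.card_insert_of_notMem (by simp)]

theorem lam_state (O : Outer m) (hO : Good O) (σ : Fin O.crossings.length → Bool) (hσ : nB σ ≠ 0) :
    (ofO O σ).lam [] + 1 ≤ (ofO O (fun _ => true)).lam [] + nB σ := by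
  obtain ⟨k, hk⟩ : ∃ k, nB σ = k + 1 := ⟨nB σ - 1, by omega⟩
  induction k generalizing σ with
  | zero =>
    obtain ⟨i, hi⟩ := Finset.card_eq_one.1 hk
    have h : σ = Function.update (fun _ => true) i false := by
      funext j
      have hj : j ∈ univ.filter (fun j => σ j = false) ↔ j = i := by rw [hi, Finset.mem_singleton]
      rw [Finset.mem_filter] at hj
      by_cases hji : j = i
      · rw [hji, Function.update_self]
        exact (hji ▸ (hj.2 hji).2)
      · rw [Function.update_of_ne hji]
        by_contra hc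
        exact hji (hj.1 ⟨Finset.mem_univ _, by simpa using hc⟩)
    have h1 := hO.flip i
    rw [← h] at h1
    omega
  | succ k ih =>
    have hne : (univ.filter (fun j => σ j = false)).Nonempty := by
      rw [← Finset.card_pos]
      unfold nB at hk
      omega
    obtain ⟨i, hi⟩ := hne
    have hi' := (Finset.mem_filter.1 hi).2
    have h1 := nB_update σ i hi'
    have h2 : nB (Function.update σ i true) = k + 1 := by omega
    have h3 := ih (Function.update σ i true) (by omega) h2
    have h4 := flip O (Function.update σ i true) i (Function.update_self ..)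
    have h5 : Function.update (Function.update σ i true) i false = σ := by
      rw [Function.update_idem, ← hi', Function.update_eq_self]
    rw [h5] at h4
    omega

/-- one state of the outside -/
noncomputable def stT (O : Outer m) (w : ℤ) (S : List (ℤ[T;T⁻¹] × List ℕ)) (σ : Fin O.crossings.length → Bool) :
    ℤ[T;T⁻¹] :=
  T (Diagram.weight σ) * (T w * dl ^ (ofO O σ).lam [] + (S.map (fun t => t.1 * dl ^ (ofO O σ).lam t.2)).sum)

theorem bnd_mul {c : ℤ[T;T⁻¹]} {L : List ℕ} {w : ℤ} (h : BndL m c L w) (X : Lk m) :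
    Dg (c * dl ^ X.lam L) (w + 2 * X.lam []) := by
  refine ((h X).mul (dg_dl _)).mono ?_
  linarith

theorem bnd_mul_first {c : ℤ[T;T⁻¹]} {i : ℕ} {L : List ℕ} {w : ℤ} (hL : ∀ x ∈ i :: L, x + 1 < m)
    (h : BndL m c (i :: L) w) (X : Lk m) (hX : X.lam [i] ≤ X.lam []) :
    Dg (c * dl ^ X.lam (i :: L)) (w + 2 * X.lam [] - 2) := by
  have hi := hL i List.mem_cons_self
  have hi1 : ∀ x ∈ [i], x + 1 < m := by intro x hx; rw [List.mem_singleton] at hx; rw [hx]; exact hi
  have h1 := h (X.mul (Lk.word m [i]))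
  rw [lam_mul X [i] [] hi1 (by simp), lam_mul X [i] (i :: L) hi1 hL, lam_cons_cons X i L hL, List.append_nil] at h1
  refine (h1.mul (dg_dl _)).mono ?_
  have h2 : (X.lam [i] : ℤ) ≤ X.lam [] := by exact_mod_cast hX
  push_cast
  linarith

theorem stT_small (O : Outer m) (hO : Good O) {w : ℤ} {S : List (ℤ[T;T⁻¹] × List ℕ)}
    (hS : ∀ t ∈ S, BndL m t.1 t.2 w) (σ : Fin O.crossings.length → Bool) (hσ : nB σ ≠ 0) :
    Dg (stT O w S σ) (O.crossings.length + w + 2 * (ofO O (fun _ => true)).lam [] - 2) := by
  have h1 := lam_state O hO σ hσ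
  have h2 : Dg (T w * dl ^ (ofO O σ).lam [] + (S.map (fun t => t.1 * dl ^ (ofO O σ).lam t.2)).sum)
      (w + 2 * (ofO O σ).lam []) :=
    ((dg_T w).mul (dg_dl _)).add (dg_list _ _ _ fun t ht => bnd_mul (hS t ht) _)
  refine ((dg_T _).mul h2).mono ?_
  rw [weight_eq]
  have h3 : ((ofO O σ).lam [] : ℤ) + 1 ≤ (ofO O (fun _ => true)).lam [] + nB σ := by exact_mod_cast h1
  linarith

theorem stT_top (O : Outer m) (hO : Good O) {w : ℤ} {S : List (ℤ[T;T⁻¹] × List ℕ)}
    (hS : ∀ t ∈ S, BndL m t.1 t.2 w) (hne : ∀ t ∈ S, t.2 ≠ []) (hmem : ∀ t ∈ S, ∀ i ∈ t.2, i + 1 < m) :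
    Dg (stT O w S (fun _ => true) - T (O.crossings.length + w) * dl ^ (ofO O (fun _ => true)).lam [])
      (O.crossings.length + w + 2 * (ofO O (fun _ => true)).lam [] - 2) := by
  have h0 : nB (fun _ : Fin O.crossings.length => true) = 0 := by simp [nB]
  have h1 : stT O w S (fun _ => true) - T (O.crossings.length + w) * dl ^ (ofO O (fun _ => true)).lam [] =
      T O.crossings.length * (S.map (fun t => t.1 * dl ^ (ofO O (fun _ => true)).lam t.2)).sum := by
    unfold stT
    rw [weight_eq, h0, T_add]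
    rw [Nat.cast_zero, mul_zero, sub_zero]
    ring
  rw [h1]
  have h2 : Dg (S.map (fun t => t.1 * dl ^ (ofO O (fun _ => true)).lam t.2)).sum
      (w + 2 * (ofO O (fun _ => true)).lam [] - 2) := by
    refine dg_list _ _ _ fun t ht => ?_
    have h3 := hne t ht
    have h4 := hmem t ht
    have h5 := hS t ht
    obtain ⟨c, L⟩ := t
    dsimp only at h3 h4 h5 ⊢
    cases L with
    | nil => exact absurd rfl h3
    | cons i L => exact bnd_mul_first h4 h5 _ (hO.e i (h4 i List.mem_cons_self))
  refine ((dg_T _).mul h2).mono ?_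
  linarith

/-- the division by `dl` -/
theorem top_div {b : ℤ[T;T⁻¹]} {E : ℤ} (h4 : Dg (dl * b) E) : Dg b (E - 2) ∧
    b.coeff (E - 2) = -(dl * b).coeff E := by
  have h6 : Dg b (E - 2) := by
    intro n hn
    by_contra hne
    have hsup : b.coeff.support.Nonempty := ⟨n, Finsupp.mem_support_iff.2 hne⟩
    set M := b.coeff.support.max' hsup with hM
    have hM1 : b.coeff M ≠ 0 := Finsupp.mem_support_iff.1 (Finset.max'_mem _ _)
    have hM2 : ∀ k, M < k → b.coeff k = 0 := by
      intro k hk
      by_contra hk'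
      have := Finset.le_max' _ k (Finsupp.mem_support_iff.2 hk')
      omega
    have hM3 : n ≤ M := Finset.le_max' _ n (Finsupp.mem_support_iff.2 hne)
    have h7 := h4 (M + 2) (by linarith)
    rw [coeff_dl_mul, hM2 (M + 2 + 2) (by omega), sub_zero, add_sub_cancel_right, neg_eq_zero] at h7
    exact hM1 h7
  refine ⟨h6, ?_⟩
  rw [coeff_dl_mul, h6 (E + 2) (by linarith), sub_zero, neg_neg]

/-- the largest exponent of the bracket -/
theorem top_bracketO (hm : 0 < m) (O : Outer m) (hO : Good O) (W : List (Bool × ℕ)) (hW : ∀ x ∈ W, x.2 + 1 < m)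
    {w : ℤ} {S : List (ℤ[T;T⁻¹] × List ℕ)} (h : RepL m 0 m W w 0 S) :
    ((draw O W).close.bracket.coeff (O.crossings.length + w + 2 * (ofO O (fun _ => true)).lam [] - 2) = 1 ∨
      (draw O W).close.bracket.coeff (O.crossings.length + w + 2 * (ofO O (fun _ => true)).lam [] - 2) = -1) ∧
      Dg (draw O W).close.bracket (O.crossings.length + w + 2 * (ofO O (fun _ => true)).lam [] - 2) := by
  set b := (draw O W).close.bracket with hb
  set l0 := (ofO O (fun _ => true)).lam [] with hl0
  set n := O.crossings.length with hn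
  have hS : ∀ t ∈ S, BndL m t.1 t.2 w := fun t ht X => (h.bnd t ht X).mono (by push_cast; linarith)
  have h1 := bracket_repL hm O W hW h
  rw [← hb] at h1
  have h2 : Dg (dl * b - T (n + w) * dl ^ l0) (n + w + 2 * l0 - 2) := by
    have h3 : dl * b - T (n + w) * dl ^ l0 = (stT O w S (fun _ => true) - T (n + w) * dl ^ l0) +
        ∑ σ ∈ univ.erase (fun _ : Fin O.crossings.length => true), stT O w S σ := by
      rw [h1, ← Finset.add_sum_erase univ _ (Finset.mem_univ (fun _ : Fin O.crossings.length => true))]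
      unfold stT
      ring
    rw [h3]
    refine Dg.add ?_ ?_
    · exact stT_top O hO hS h.ne (fun t ht i hi => by have := (h.mem t ht i hi).2; omega)
    · intro k hk
      rw [AddMonoidAlgebra.coeff_sum, Finsupp.finsetSum_apply]
      refine Finset.sum_eq_zero fun σ hσ => ?_
      refine stT_small O hO hS σ ?_ k hk
      intro h0
      apply Finset.ne_of_mem_erase hσ
      funext i
      by_contra hc
      have : i ∈ univ.filter (fun i => σ i = false) := Finset.mem_filter.2 ⟨Finset.mem_univ _, by simpa using hc⟩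
      unfold nB at h0
      rw [Finset.card_eq_zero] at h0
      rw [h0] at this
      simp at this
  have h3 : Dg (T (n + w) * dl ^ l0) (n + w + 2 * l0) := (dg_T _).mul (dg_dl l0)
  have h5 : dl * b = T (n + w) * dl ^ l0 + (dl * b - T (n + w) * dl ^ l0) := by ring
  have h4 : Dg (dl * b) (n + w + 2 * l0) := by
    rw [h5]
    exact h3.add (h2.mono (by linarith))
  obtain ⟨h6, h7⟩ := top_div h4
  refine ⟨?_, h6⟩
  have h8 : (dl * b).coeff (n + w + 2 * l0) = (-1) ^ l0 := by
    rw [h5, AddMonoidAlgebra.coeff_add, Finsupp.add_apply, h2 _ (by linarith), add_zero, coeff_T_mul]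
    have : (n : ℤ) + w + 2 * (l0 : ℤ) - (n + w) = 2 * l0 := by ring
    rw [this, coeff_dl_pow]
  rw [h7, h8]
  rcases Nat.even_or_odd l0 with h9 | h9
  · rw [h9.neg_one_pow]; simp
  · rw [h9.neg_one_pow]; simp

end Pool.Agent.N569.VT
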