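import Pool.Agent.N569.VT.All

/-!
# The type of a linkage
-/

set_option autoImplicit false

namespace Pool.Agent.N569.VT

open Pool.Agent.H891R2.Jones Pool.Agent.W639.RB Pool.Agent.TH561 Pool.Agent.N569.TW Finset LaurentPolynomial

variable {m : ℕ}

namespace Lk

/-- the `2 m` ends -/
def fin2 (X : Lk m) : Fin m ⊕ Fin m → X.Q := Sum.elim X.l X.u

/-- the partition of the ends: two ends are in relation if they are joined -/
def part (X : Lk m) (a b : Fin m ⊕ Fin m) : Prop := Relation.EqvGen X.R (X.fin2 a) (X.fin2 b)

/-- the number of the pieces without ends -/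
noncomputable def free (X : Lk m) : ℕ := Nat.card {q : Quot X.R // ∀ a, Quot.mk X.R (X.fin2 a) ≠ q}

end Lk

/-- two outsides look alike: the same numbers of crossings, the same directions of the strands, the same writhe, and
in each state the same type -/
structure Alike (O O' : Outer m) : Prop where
  len : O.crossings.length = O'.crossings.length
  up : O.up = O'.up
  wr : O.close.writhe = O'.close.writhe
  part : ∀ (σ : Fin O.crossings.length → Bool) (σ' : Fin O'.crossings.length → Bool),
    (∀ i : Fin O.crossings.length, σ i = σ' (Fin.cast len i)) → (ofO O σ).part = (ofO O' σ').part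
  free : ∀ (σ : Fin O.crossings.length → Bool) (σ' : Fin O'.crossings.length → Bool),
    (∀ i : Fin O.crossings.length, σ i = σ' (Fin.cast len i)) → (ofO O σ).free = (ofO O' σ').free

end Pool.Agent.N569.VT
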