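import Pool.Agent.N569.VT.Alike

/-!
# One order for all outsides with boundedly many crossings
-/

set_option autoImplicit false

namespace Pool.Agent.N569.VT

open Pool.Agent.H891R2.Jones Pool.Agent.W639.RB Pool.Agent.TH561 Pool.Agent.N569.TW Finset LaurentPolynomial
  Pool.Agent.Y463.SK Pool.Agent.H832R3.VJ Pool.Agent.N571.TLF

variable {m : ℕ}

/-! ### one family -/

theorem moments_one {k : ℕ} (hm : 0 < m) (O : Outer m) (w v : Fin k → List (Letter m)) (F : ℤ[T;T⁻¹]) :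
    ∃ d : ℕ, ∀ (n : Fin k → ℤ), (∀ j ≤ d, moment j (dia O (multiW w v n)).fPoly = moment j F) →
      (dia O (multiW w v n)).fPoly = F := by
  have h1 := fun (s : Fin k → Fin m.factorial) =>
    (tame_class hm O w v (fun i => ((s i : ℕ) : ℤ)) _ (fun i => pure_factorial (w i))).order (k' := 0) (f' := fun _ => F)
      (fun i => i.elim0)
  choose d hd using h1
  refine ⟨univ.sup d, fun n hn => ?_⟩
  have hf : ∀ m : ℕ, (0 : ℤ) < (m.factorial : ℕ) := fun m => by exact_mod_cast m.factorial_pos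
  set s : Fin k → Fin m.factorial := fun i =>
    ⟨(n i % (m.factorial : ℕ)).toNat, by
      have h2 := Int.emod_nonneg (n i) (hf m).ne'
      have h3 := Int.emod_lt_of_pos (n i) (hf m)
      omega⟩ with hs
  have e1 : n = fun i => ((m.factorial : ℕ) : ℤ) * (n i / (m.factorial : ℕ)) + ((s i : ℕ) : ℤ) := by
    funext i
    simp only [hs]
    rw [Int.toNat_of_nonneg (Int.emod_nonneg (n i) (hf m).ne'), Int.mul_ediv_add_emod]
  have h2 := hd s (fun i => n i / (m.factorial : ℕ)) 0 (by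
    intro j hj
    rw [← e1]
    exact hn j (hj.trans (Finset.le_sup (Finset.mem_univ s))))
  rw [← e1] at h2
  exact h2

/-! ### all outsides -/

/-- words of bounded length -/
abbrev Wd (m ℓ : ℕ) : Type := {l : List (Letter m) // l.length ≤ ℓ}

instance (m ℓ : ℕ) : Finite (Wd m ℓ) := List.finite_length_le _ _

theorem uni_bd (hm : 0 < m) (N B r ℓ : ℕ) (F : ℤ[T;T⁻¹]) : ∃ d : ℕ, ∀ O : Outer m, Bd N B O →
    ∀ w v : Fin r → List (Letter m), (∀ i, (w i).length ≤ ℓ) → (∀ i, (v i).length ≤ ℓ) → ∀ n : Fin r → ℤ,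
      (∀ j ≤ d, moment j (dia O (multiW w v n)).fPoly = moment j F) → (dia O (multiW w v n)).fPoly = F := by
  classical
  have h1 : ∀ x : Dt m N B × (Fin r → Wd m ℓ) × (Fin r → Wd m ℓ), ∃ d : ℕ, ∀ O : Outer m, Bd N B O →
      dat N B O = x.1 → ∀ n : Fin r → ℤ,
      (∀ j ≤ d, moment j (dia O (multiW (fun i => (x.2.1 i).1) (fun i => (x.2.2 i).1) n)).fPoly = moment j F) →
        (dia O (multiW (fun i => (x.2.1 i).1) (fun i => (x.2.2 i).1) n)).fPoly = F := by
    intro x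
    by_cases hx : ∃ O : Outer m, Bd N B O ∧ dat N B O = x.1
    · obtain ⟨O₀, h0, h0'⟩ := hx
      obtain ⟨d, hd⟩ := moments_one hm O₀ (fun i => (x.2.1 i).1) (fun i => (x.2.2 i).1) F
      refine ⟨d, fun O hO hO' n hn => ?_⟩
      have ha : Alike O O₀ := alike_of_dat hO h0 (hO'.trans h0'.symm)
      rw [dia_alike hm ha]
      apply hd
      intro j hj
      rw [← dia_alike hm ha]
      exact hn j hj
    · exact ⟨0, fun O hO hO' => absurd ⟨O, hO, hO'⟩ hx⟩
  choose d hd using h1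
  letI : Fintype (Dt m N B × (Fin r → Wd m ℓ) × (Fin r → Wd m ℓ)) := Fintype.ofFinite _
  refine ⟨univ.sup d, fun O hO w v hw hv n hn => ?_⟩
  have h2 := hd (dat N B O, (fun i => ⟨w i, hw i⟩), (fun i => ⟨v i, hv i⟩)) O hO rfl n
  apply h2
  intro j hj
  exact hn j (hj.trans (Finset.le_sup (f := d) (Finset.mem_univ _)))

theorem uni_bd_pairs {m' : ℕ} (hm : 0 < m) (hm' : 0 < m') (N B r ℓ : ℕ) : ∃ d : ℕ,
    ∀ (O : Outer m) (O' : Outer m'), Bd N B O → Bd N B O' →
    ∀ (w v : Fin r → List (Letter m)) (w' v' : Fin r → List (Letter m')), (∀ i, (w i).length ≤ ℓ) →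
      (∀ i, (v i).length ≤ ℓ) → (∀ i, (w' i).length ≤ ℓ) → (∀ i, (v' i).length ≤ ℓ) → ∀ n n' : Fin r → ℤ,
      (∀ j ≤ d, moment j (dia O (multiW w v n)).fPoly = moment j (dia O' (multiW w' v' n')).fPoly) →
        (dia O (multiW w v n)).fPoly = (dia O' (multiW w' v' n')).fPoly := by
  classical
  have h1 : ∀ (x : Dt m N B × (Fin r → Wd m ℓ) × (Fin r → Wd m ℓ))
      (x' : Dt m' N B × (Fin r → Wd m' ℓ) × (Fin r → Wd m' ℓ)), ∃ d : ℕ,
      ∀ (O : Outer m) (O' : Outer m'), Bd N B O → Bd N B O' → dat N B O = x.1 → dat N B O' = x'.1 →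
      ∀ n n' : Fin r → ℤ,
      (∀ j ≤ d, moment j (dia O (multiW (fun i => (x.2.1 i).1) (fun i => (x.2.2 i).1) n)).fPoly =
        moment j (dia O' (multiW (fun i => (x'.2.1 i).1) (fun i => (x'.2.2 i).1) n')).fPoly) →
        (dia O (multiW (fun i => (x.2.1 i).1) (fun i => (x.2.2 i).1) n)).fPoly =
        (dia O' (multiW (fun i => (x'.2.1 i).1) (fun i => (x'.2.2 i).1) n')).fPoly := by
    intro x x'
    by_cases hx : ∃ O : Outer m, Bd N B O ∧ dat N B O = x.1
    · by_cases hx' : ∃ O : Outer m', Bd N B O ∧ dat N B O = x'.1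
      · obtain ⟨O₀, h0, h0'⟩ := hx
        obtain ⟨O₁, h1, h1'⟩ := hx'
        obtain ⟨d, hd⟩ := uniform hm hm' O₀ (fun i => (x.2.1 i).1) (fun i => (x.2.2 i).1)
          O₁ (fun i => (x'.2.1 i).1) (fun i => (x'.2.2 i).1)
        refine ⟨d, fun O O' hO hO' e e' n n' hn => ?_⟩
        have ha : Alike O O₀ := alike_of_dat hO h0 (e.trans h0'.symm)
        have ha' : Alike O' O₁ := alike_of_dat hO' h1 (e'.trans h1'.symm)
        rw [dia_alike hm ha, dia_alike hm' ha']
        apply hd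
        intro j hj
        rw [← dia_alike hm ha, ← dia_alike hm' ha']
        exact hn j hj
      · exact ⟨0, fun O O' hO hO' e e' => absurd ⟨O', hO', e'⟩ hx'⟩
    · exact ⟨0, fun O O' hO hO' e e' => absurd ⟨O, hO, e⟩ hx⟩
  choose d hd using h1
  letI : Fintype (Dt m N B × (Fin r → Wd m ℓ) × (Fin r → Wd m ℓ)) := Fintype.ofFinite _
  letI : Fintype (Dt m' N B × (Fin r → Wd m' ℓ) × (Fin r → Wd m' ℓ)) := Fintype.ofFinite _
  refine ⟨univ.sup (fun x => univ.sup (fun x' => d x x')), fun O O' hO hO' w v w' v' hw hv hw' hv' n n' hn => ?_⟩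
  have h2 := hd (dat N B O, (fun i => ⟨w i, hw i⟩), (fun i => ⟨v i, hv i⟩))
    (dat N B O', (fun i => ⟨w' i, hw' i⟩), (fun i => ⟨v' i, hv' i⟩)) O O' hO hO' rfl rfl n n'
  apply h2
  intro j hj
  refine hn j (hj.trans (le_trans ?_ (Finset.le_sup (f := fun x => univ.sup (fun x' => d x x'))
    (Finset.mem_univ (dat N B O, (fun i => ⟨w i, hw i⟩), (fun i => ⟨v i, hv i⟩))))))
  exact Finset.le_sup (f := fun x' => d _ x') (Finset.mem_univ _)

end Pool.Agent.N569.VT
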